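import Pool.Agent.H51.MO.TargetsA

/-!
# MP_c62aed_lc: monotone circuits of any depth: the main argument (row A_MAIN)
-/

set_option autoImplicit false

namespace Pool.Agent.H4.MO

open Finset Pool.Agent.H51.MO

section defs

variable {k b m : ℕ}

/-- The formulas which have been removed before the node `v`. -/
noncomputable def UP (P : ℕ → Finset (Fin m → Om k b))
    (Er : Finset (Fin m → Om k b) → Finset (Fin m → Om k b)) : ℕ → Finset (Fin m → Om k b)
  | 0 => ∅
  | v + 1 => by
    classical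
    exact UP P Er v ∪ Er (P v \ UP P Er v)

open Classical in
/-- The formulas of the node `v` which are still there. -/
noncomputable def PS (P : ℕ → Finset (Fin m → Om k b))
    (Er : Finset (Fin m → Om k b) → Finset (Fin m → Om k b)) (v : ℕ) :
    Finset (Fin m → Om k b) := P v \ UP P Er v

open Classical in
/-- The dense formulas of the node `v`. -/
noncomputable def QS (P : ℕ → Finset (Fin m → Om k b))
    (Er : Finset (Fin m → Om k b) → Finset (Fin m → Om k b)) (v : ℕ) :
    Finset (Fin m → Om k b) := PS P Er v \ Er (PS P Er v)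

open Classical in
/-- The points of `B` which satisfy the equations of `F` in `I`. -/
noncomputable def SF (B : Finset (Pt k b)) (I : Finset (Fin m)) (F : Fin m → Om k b) :
    Finset (Pt k b) := B.filter (fun x => ∀ i ∈ I, ys (F i) x = 1)

open Classical in
/-- The points in a small set. -/
noncomputable def ES (th : ℝ) (B : Finset (Pt k b)) (Q : Finset (Fin m → Om k b))
    (I : (Fin m → Om k b) → Finset (Fin m)) : Finset (Pt k b) :=
  B.filter (fun x => ∃ F ∈ Q, x ∈ SF B (I F) F ∧ ((SF B (I F) F).card : ℝ) < th)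

/-- The points which have been removed before the node `v`. -/
noncomputable def UA (A : ℕ → Finset (Pt k b)) (th : ℝ) (Q : ℕ → Finset (Fin m → Om k b))
    (I : ℕ → (Fin m → Om k b) → Finset (Fin m)) : ℕ → Finset (Pt k b)
  | 0 => ∅
  | v + 1 => by
    classical
    exact UA A th Q I v ∪ ES th (A v \ UA A th Q I v) (Q v) (I v)

open Classical in
theorem UP_succ (P : ℕ → Finset (Fin m → Om k b))
    (Er : Finset (Fin m → Om k b) → Finset (Fin m → Om k b)) (v : ℕ) :
    UP P Er (v + 1) = UP P Er v ∪ Er (PS P Er v) := rfl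

open Classical in
theorem UA_succ (A : ℕ → Finset (Pt k b)) (th : ℝ) (Q : ℕ → Finset (Fin m → Om k b))
    (I : ℕ → (Fin m → Om k b) → Finset (Fin m)) (v : ℕ) :
    UA A th Q I (v + 1) = UA A th Q I v ∪ ES th (A v \ UA A th Q I v) (Q v) (I v) := rfl

theorem UP_mono (P : ℕ → Finset (Fin m → Om k b))
    (Er : Finset (Fin m → Om k b) → Finset (Fin m → Om k b)) : Monotone (UP P Er) := by
  classical
  exact monotone_nat_of_le_succ fun v => by
    rw [UP_succ]
    exact Finset.subset_union_left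

theorem UA_mono (A : ℕ → Finset (Pt k b)) (th : ℝ) (Q : ℕ → Finset (Fin m → Om k b))
    (I : ℕ → (Fin m → Om k b) → Finset (Fin m)) : Monotone (UA A th Q I) := by
  classical
  exact monotone_nat_of_le_succ fun v => by
    rw [UA_succ]
    exact Finset.subset_union_left

theorem UP_card (P : ℕ → Finset (Fin m → Om k b))
    (Er : Finset (Fin m → Om k b) → Finset (Fin m → Om k b)) (T : ℝ)
    (h : ∀ R, ((Er R).card : ℝ) ≤ T) (v : ℕ) : ((UP P Er v).card : ℝ) ≤ v * T := by
  classical
  induction v with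
  | zero => simp [UP]
  | succ v ih =>
    rw [UP_succ]
    have h1 : ((UP P Er v ∪ Er (PS P Er v)).card : ℝ) ≤
        (UP P Er v).card + (Er (PS P Er v)).card := by
      exact_mod_cast Finset.card_union_le _ _
    have h2 := h (PS P Er v)
    push_cast
    linarith

/-- The points in the small sets are few. -/
theorem ES_card (hN : S_ACNT) (w : ℕ) (th : ℝ) (hth : 0 < th) (B : Finset (Pt k b))
    (Q : Finset (Fin m → Om k b)) (I : (Fin m → Om k b) → Finset (Fin m))
    (hI : ∀ F ∈ Q, (I F).card ≤ w) :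
    ((ES th B Q I).card : ℝ) ≤ (1 + m * (2 * (b : ℝ) ^ k)) ^ w * th := by
  classical
  set R : Finset (Fin m → Option (Om k b)) :=
    univ.filter (fun ρ => (univ.filter (fun i => ρ i ≠ none)).card ≤ w) with hR
  set G : (Fin m → Option (Om k b)) → Finset (Pt k b) := fun ρ =>
    B.filter (fun x => ∀ i s, ρ i = some s → ys s x = 1) with hG
  set G' : (Fin m → Option (Om k b)) → Finset (Pt k b) := fun ρ =>
    if ((G ρ).card : ℝ) < th then G ρ else ∅ with hG'
  have h1 : ES th B Q I ⊆ R.biUnion G' := by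
    intro x hx
    obtain ⟨hxB, F, hF, hxF, hc⟩ := Finset.mem_filter.1 hx
    rw [Finset.mem_biUnion]
    set ρ : Fin m → Option (Om k b) := fun i => if i ∈ I F then some (F i) else none with hρ
    have hGS : G ρ = SF B (I F) F := by
      ext y
      simp only [hG, SF, Finset.mem_filter]
      refine and_congr_right fun _ => ?_
      constructor
      · intro h i hi
        exact h i (F i) (by simp [hρ, hi])
      · intro h i s hs
        by_cases hi : i ∈ I F
        · simp only [hρ, if_pos hi, Option.some.injEq] at hs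
          rw [← hs]
          exact h i hi
        · simp [hρ, hi] at hs
    refine ⟨ρ, ?_, ?_⟩
    · rw [hR, Finset.mem_filter]
      refine ⟨Finset.mem_univ _, ?_⟩
      have h2 : univ.filter (fun i => ρ i ≠ none) = I F := by
        ext i
        simp [hρ]
      rw [h2]
      exact hI F hF
    · simp only [hG']
      rw [if_pos (by rw [hGS]; exact hc), hGS]
      exact hxF
  have h2 : ((ES th B Q I).card : ℝ) ≤ ∑ ρ ∈ R, ((G' ρ).card : ℝ) := by
    have h3 : (ES th B Q I).card ≤ ∑ ρ ∈ R, (G' ρ).card :=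
      (Finset.card_le_card h1).trans Finset.card_biUnion_le
    exact_mod_cast h3
  have h3 : ∑ ρ ∈ R, ((G' ρ).card : ℝ) ≤ ∑ ρ ∈ R, th := by
    refine Finset.sum_le_sum fun ρ _ => ?_
    simp only [hG']
    split_ifs with h
    · exact h.le
    · simpa using hth.le
  have h4 : (R.card : ℝ) ≤ (1 + m * (2 * (b : ℝ) ^ k)) ^ w := by
    have h5 := hN (Om k b) m w
    have h6 : Fintype.card (Om k b) = b ^ k * 2 := by simp [Om]
    have h7 : R.card ≤ (1 + m * (b ^ k * 2)) ^ w := by
      rw [← h6]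
      refine (Finset.card_le_card fun ρ hρ => ?_).trans h5
      simp only [hR, Finset.mem_filter, Finset.mem_univ, true_and] at hρ ⊢
      exact (Finset.card_le_card fun i hi => by
        simp only [Finset.mem_filter, Finset.mem_univ, true_and] at hi ⊢
        exact hi).trans hρ
    calc (R.card : ℝ) ≤ (((1 + m * (b ^ k * 2)) ^ w : ℕ) : ℝ) := by exact_mod_cast h7
      _ = (1 + m * (2 * (b : ℝ) ^ k)) ^ w := by push_cast; ring
  calc ((ES th B Q I).card : ℝ) ≤ ∑ ρ ∈ R, th := h2.trans h3
    _ = R.card * th := by rw [Finset.sum_const, nsmul_eq_mul]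
    _ ≤ (1 + m * (2 * (b : ℝ) ^ k)) ^ w * th := mul_le_mul_of_nonneg_right h4 hth.le

theorem UA_card (hN : S_ACNT) (w : ℕ) (th : ℝ) (hth : 0 < th) (A : ℕ → Finset (Pt k b))
    (Q : ℕ → Finset (Fin m → Om k b)) (I : ℕ → (Fin m → Om k b) → Finset (Fin m))
    (hI : ∀ v, ∀ F ∈ Q v, (I v F).card ≤ w) (v : ℕ) :
    ((UA A th Q I v).card : ℝ) ≤ v * ((1 + m * (2 * (b : ℝ) ^ k)) ^ w * th) := by
  classical
  induction v with
  | zero => simp [UA]
  | succ v ih =>
    rw [UA_succ]
    have h1 : ((UA A th Q I v ∪ ES th (A v \ UA A th Q I v) (Q v) (I v)).card : ℝ) ≤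
        (UA A th Q I v).card + (ES th (A v \ UA A th Q I v) (Q v) (I v)).card := by
      exact_mod_cast Finset.card_union_le _ _
    have h2 := ES_card hN w th hth (A v \ UA A th Q I v) (Q v) (I v) (hI v)
    push_cast
    linarith

end defs

/-- Density outside `I` for one equation. -/
theorem dns_use {Om : Type} [Fintype Om] [DecidableEq Om] {m : ℕ} {β : ℝ}
    {I : Finset (Fin m)} {C : Finset (Fin m → Om)} (h : Dns β I C) {u : Fin m} (hu : u ∉ I)
    (s : Om) : ((C.filter (fun F2 => F2 u = s)).card : ℝ) * Fintype.card Om ≤ β * C.card := by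
  have h3 := h {u} (Finset.disjoint_singleton_left.2 hu) (fun _ => s)
  rw [Finset.card_singleton, pow_one, pow_one] at h3
  refine le_trans (mul_le_mul_of_nonneg_right (Nat.cast_le.2 (Finset.card_le_card ?_))
    (Nat.cast_nonneg _)) h3
  intro F2 hF2
  simp only [Finset.mem_filter, Finset.mem_singleton] at hF2 ⊢
  exact ⟨hF2.1, fun i hi => by rw [hi]; exact hF2.2⟩

/-- The result of the density restoration, with explicit members. -/
theorem res_use (hR : S_ARES) (Om : Type) [Fintype Om] [Nonempty Om] (m : ℕ) (β T : ℝ)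
    (hβ : 0 < β) (hT : 0 < T) (P : Finset (Fin m → Om)) :
    ∃ (E : Finset (Fin m → Om)) (I : (Fin m → Om) → Finset (Fin m)), (E.card : ℝ) ≤ T ∧
      ∀ F, F ∈ P → F ∉ E → T * β ^ (I F).card ≤ (Fintype.card Om : ℝ) ^ m ∧
        ∃ C : Finset (Fin m → Om), Dns β (I F) C ∧
          ∀ F2, F2 ∈ C ↔ (F2 ∈ P ∧ F2 ∉ E) ∧ I F2 = I F ∧ ∀ i ∈ I F, F2 i = F i := by
  classical
  obtain ⟨E, I, h1, h2, h3⟩ := hR Om m β T hβ hT P
  refine ⟨E, I, h2, fun F hF hFE => ?_⟩
  obtain ⟨h4, h5⟩ := h3 F (by
    simp only [Finset.mem_sdiff]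
    exact ⟨hF, hFE⟩)
  refine ⟨h4, _, h5, fun F2 => ?_⟩
  simp only [cls, Finset.mem_filter, Finset.mem_sdiff]

/-- Row A_MAIN. -/
theorem pf_AMAIN (hR : S_ARES) (hN : S_ACNT) (hS : S_ASEL) (hX : S_AEXI) (hI : S_AIND) :
    S_AMAIN := by
  classical
  intro k b m q w out β e T th A P hk hb hkw hth hq hβ he0 he1 hew hstep hmb hT hj hnode hAout
    hLout
  have hβ0 : 0 < β := by linarith
  haveI : Nonempty (Fin b) := ⟨⟨0, hb⟩⟩
  have hcard : (Fintype.card (Om k b) : ℝ) = 2 * (b : ℝ) ^ k := by
    have h6 : Fintype.card (Om k b) = b ^ k * 2 := by simp [Om]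
    rw [h6]
    push_cast
    ring
  choose Er Ir hE2 hE3 using res_use hR (Om k b) m β T hβ0 hT
  set idx : ℕ → (Fin m → Om k b) → Finset (Fin m) := fun v => Ir (PS P Er v) with hidx
  have hidxw : ∀ v, ∀ F ∈ QS P Er v, (idx v F).card ≤ w := by
    intro v F hF
    have h1 := (hE3 (PS P Er v) F (Finset.mem_sdiff.1 hF).1 (Finset.mem_sdiff.1 hF).2).1
    rw [hcard] at h1
    exact hj _ h1
  set U : ℕ → Finset (Pt k b) := UA A th (QS P Er) idx with hU
  -- the claim
  have claim : ∀ v, v ≤ out → ∀ F ∈ QS P Er v,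
      ¬ th ≤ ((SF (A v \ U v) (idx v F) F).card : ℝ) := by
    intro v
    induction v using Nat.strong_induction_on with
    | _ v ih =>
      intro hv F hF hal
      obtain ⟨-, C, hdns, hCiff⟩ :=
        hE3 (PS P Er v) F (Finset.mem_sdiff.1 hF).1 (Finset.mem_sdiff.1 hF).2
      have hFC : F ∈ C :=
        (hCiff F).2 ⟨⟨(Finset.mem_sdiff.1 hF).1, (Finset.mem_sdiff.1 hF).2⟩, rfl, fun _ _ => rfl⟩
      have hCm : ∀ F2 ∈ C, F2 ∈ QS P Er v ∧ ∀ i ∈ idx v F, F2 i = F i := by
        intro F2 hF2
        obtain ⟨⟨h1, h2⟩, -, h3⟩ := (hCiff F2).1 hF2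
        exact ⟨Finset.mem_sdiff.2 ⟨h1, h2⟩, h3⟩
      have hQP : ∀ F2 ∈ QS P Er v, F2 ∈ P v ∧ F2 ∉ UP P Er v := by
        intro F2 hF2
        have h1 := (Finset.mem_sdiff.1 hF2).1
        exact Finset.mem_sdiff.1 h1
      set A0 : Finset (Pt k b) := SF (A v \ U v) (idx v F) F with hA0
      have hA0m : ∀ x ∈ A0, (x ∈ A v ∧ x ∉ U v) ∧ ∀ i ∈ idx v F, ys (F i) x = 1 := by
        intro x hx
        rw [hA0, SF, Finset.mem_filter, Finset.mem_sdiff] at hx
        exact hx
      have hA0ne : A0.Nonempty := by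
        rw [← Finset.card_pos]
        have h1 : (0 : ℝ) < A0.card := lt_of_lt_of_le hth hal
        exact_mod_cast h1
      -- the step to a child
      have child : ∀ d, d < v → ∀ A' : Finset (Pt k b), A' ⊆ A0 → A' ⊆ A d → A'.Nonempty →
          ∀ F2 ∈ C, F2 ∈ P d → Light A' w e (idx v F) F2 → False := by
        intro d hd A' hA'0 hA'd hA'n F2 hF2 hF2d hL
        obtain ⟨hF2Q, hF2i⟩ := hCm F2 hF2
        have hnU := (hQP F2 hF2Q).2
        have h1 : F2 ∉ UP P Er (d + 1) := fun h => hnU (UP_mono P Er (Nat.succ_le_of_lt hd) h)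
        rw [UP_succ, Finset.mem_union, not_or] at h1
        have h2 : F2 ∈ PS P Er d := Finset.mem_sdiff.2 ⟨hF2d, h1.1⟩
        have h3 : F2 ∈ QS P Er d := Finset.mem_sdiff.2 ⟨h2, h1.2⟩
        have h4 : (idx d F2 \ idx v F).card ≤ w :=
          (Finset.card_le_card Finset.sdiff_subset).trans (hidxw d F2 h3)
        obtain ⟨x, hx, hxs⟩ := hX k b m w e A' (idx v F) (idx d F2 \ idx v F) F2 hA'n he0.le hew
          hL Finset.sdiff_disjoint h4
        obtain ⟨⟨hxA, hxU⟩, hxi⟩ := hA0m x (hA'0 hx)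
        have h5 : ∀ i ∈ idx d F2, ys (F2 i) x = 1 := by
          intro i hi
          by_cases hiv : i ∈ idx v F
          · rw [hF2i i hiv]
            exact hxi i hiv
          · exact hxs i (Finset.mem_sdiff.2 ⟨hi, hiv⟩)
        have h6 : x ∉ U (d + 1) := fun h => hxU (UA_mono A th _ _ (Nat.succ_le_of_lt hd) h)
        rw [hU, UA_succ, Finset.mem_union, not_or, ← hU] at h6
        have h7 : x ∈ A d \ U d := Finset.mem_sdiff.2 ⟨hA'd hx, h6.1⟩
        have h8 : x ∈ SF (A d \ U d) (idx d F2) F2 := by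
          rw [SF, Finset.mem_filter]
          exact ⟨h7, h5⟩
        refine ih d hd (hd.le.trans hv) F2 h3 ?_
        by_contra hlt
        push Not at hlt
        apply h6.2
        rw [ES, Finset.mem_filter]
        exact ⟨h7, F2, h3, h8, hlt⟩
      rcases hnode v hv with ⟨c, hc, c', hc', hcov⟩ | ⟨s, hs⟩
      · have hsel := hS k b m q w β e th A0 (A c) (A c') (idx v F) C (P c) (P c') hk hb hkw hth hq
          hβ0 he0 hstep hdns ⟨F, hFC⟩ hal (by
            intro x hx F2 hF2
            exact hcov x (hA0m x hx).1.1 F2 (hQP F2 (hCm F2 hF2).1).1)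
        rcases hsel with ⟨A', h1, h2, h3, F2, h4, h5, h6⟩ | ⟨A', h1, h2, h3, F2, h4, h5, h6⟩
        · exact child c hc A' h1 h2 h3 F2 h4 h5 h6
        · exact child c' hc' A' h1 h2 h3 F2 h4 h5 h6
      · obtain ⟨x, hx⟩ := hA0ne
        obtain ⟨⟨hxA, hxU⟩, hxi⟩ := hA0m x hx
        have h1 : C ⊆ (univ \ idx v F).biUnion (fun u => C.filter (fun F2 => F2 u = s)) := by
          intro F2 hF2
          obtain ⟨hF2Q, hF2i⟩ := hCm F2 hF2
          obtain ⟨hsx, u, hu⟩ := hs x hxA F2 (hQP F2 hF2Q).1
          rw [Finset.mem_biUnion]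
          refine ⟨u, ?_, Finset.mem_filter.2 ⟨hF2, hu⟩⟩
          rw [Finset.mem_sdiff]
          refine ⟨Finset.mem_univ _, fun huI => ?_⟩
          have h2 := hxi u huI
          rw [← hF2i u huI, hu, hsx] at h2
          norm_num at h2
        have h2 : ∀ u ∈ univ \ idx v F, ((C.filter (fun F2 => F2 u = s)).card : ℝ) *
            (2 * (b : ℝ) ^ k) ≤ β * C.card := by
          intro u hu
          have h3 := dns_use hdns (Finset.mem_sdiff.1 hu).2 s
          rw [hcard] at h3
          exact h3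
        have hC0 : (0 : ℝ) < C.card := by
          have := Finset.card_pos.2 ⟨F, hFC⟩
          exact_mod_cast this
        have h3 : (C.card : ℝ) ≤ ∑ u ∈ univ \ idx v F, ((C.filter (fun F2 => F2 u = s)).card : ℝ) := by
          have h4 : C.card ≤ ∑ u ∈ univ \ idx v F, (C.filter (fun F2 => F2 u = s)).card :=
            (Finset.card_le_card h1).trans Finset.card_biUnion_le
          exact_mod_cast h4
        have h4 : (C.card : ℝ) * (2 * (b : ℝ) ^ k) ≤ m * β * C.card := by
          calc (C.card : ℝ) * (2 * (b : ℝ) ^ k)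
              ≤ (∑ u ∈ univ \ idx v F, ((C.filter (fun F2 => F2 u = s)).card : ℝ)) *
                (2 * (b : ℝ) ^ k) := mul_le_mul_of_nonneg_right h3 (by positivity)
            _ = ∑ u ∈ univ \ idx v F, ((C.filter (fun F2 => F2 u = s)).card : ℝ) *
                (2 * (b : ℝ) ^ k) := by rw [Finset.sum_mul]
            _ ≤ ∑ u ∈ univ \ idx v F, β * C.card := Finset.sum_le_sum h2
            _ = ((univ \ idx v F).card : ℝ) * (β * C.card) := by
                rw [Finset.sum_const, nsmul_eq_mul]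
            _ ≤ m * (β * C.card) := by
                refine mul_le_mul_of_nonneg_right ?_ (by positivity)
                have h5 : (univ \ idx v F).card ≤ m := by
                  calc (univ \ idx v F).card ≤ (univ : Finset (Fin m)).card :=
                        Finset.card_le_card Finset.sdiff_subset
                    _ = m := by simp
                exact_mod_cast h5
            _ = m * β * C.card := by ring
        have h5 := mul_lt_mul_of_pos_right hmb hC0
        linarith
  -- the root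
  by_contra hcon
  rw [not_or] at hcon
  obtain ⟨hc1, hc2⟩ := hcon
  push Not at hc1 hc2
  have hUPc := UP_card P Er T hE2 (out + 1)
  have h1 : ∃ F ∈ P out, F ∉ UP P Er (out + 1) := by
    by_contra h
    push Not at h
    have h2 : ((P out).card : ℝ) ≤ (UP P Er (out + 1)).card := by
      exact_mod_cast Finset.card_le_card (fun F hF => h F hF)
    push_cast at hUPc
    linarith
  obtain ⟨F, hFP, hFU⟩ := h1
  rw [UP_succ, Finset.mem_union, not_or] at hFU
  have h2 : F ∈ PS P Er out := Finset.mem_sdiff.2 ⟨hFP, hFU.1⟩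
  have h3 : F ∈ QS P Er out := Finset.mem_sdiff.2 ⟨h2, hFU.2⟩
  have h4 := hidxw out F h3
  have h5 := hI k b m w e (idx out F) F he0.le he1 (hLout F hFP) h4
  have h6 := UA_card hN w th hth A (QS P Er) idx hidxw (out + 1)
  rw [← hU] at h6
  set G : Finset (Pt k b) := univ.filter (fun x : Pt k b => ∀ u ∈ idx out F, ys (F u) x = 1) with hG
  have h7 : ((U (out + 1)).card : ℝ) < G.card := by
    have h8 : (2 : ℝ) ^ (k * b) ≤ G.card * 2 ^ w := by
      have h9 : 2 ^ (k * b) ≤ G.card * 2 ^ w := by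
        rw [← h5]
        exact Nat.mul_le_mul_left _ (Nat.pow_le_pow_right (by norm_num) h4)
      exact_mod_cast h9
    have h10 : (2 : ℝ) ^ w * (U (out + 1)).card < 2 ^ w * G.card := by
      calc (2 : ℝ) ^ w * (U (out + 1)).card
          ≤ 2 ^ w * (((out + 1 : ℕ) : ℝ) * ((1 + m * (2 * (b : ℝ) ^ k)) ^ w * th)) :=
            mul_le_mul_of_nonneg_left h6 (by positivity)
        _ = 2 ^ w * ((out + 1) * ((1 + m * (2 * (b : ℝ) ^ k)) ^ w * th)) := by push_cast; rfl
        _ < 2 ^ (k * b) := hc2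
        _ ≤ G.card * 2 ^ w := h8
        _ = 2 ^ w * G.card := by ring
    exact lt_of_mul_lt_mul_left h10 (by positivity)
  have h8 : ∃ x ∈ G, x ∉ U (out + 1) := by
    by_contra h
    push Not at h
    have h9 : (G.card : ℝ) ≤ (U (out + 1)).card := by
      exact_mod_cast Finset.card_le_card (fun x hx => h x hx)
    linarith
  obtain ⟨x, hxG, hxU⟩ := h8
  rw [hU, UA_succ, Finset.mem_union, not_or, ← hU] at hxU
  have h9 : x ∈ A out \ U out := by
    rw [Finset.mem_sdiff, hAout]
    exact ⟨Finset.mem_univ _, hxU.1⟩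
  have h10 : x ∈ SF (A out \ U out) (idx out F) F := by
    rw [SF, Finset.mem_filter]
    exact ⟨h9, (Finset.mem_filter.1 hxG).2⟩
  refine claim out le_rfl F h3 ?_
  by_contra hlt
  push Not at hlt
  apply hxU.2
  rw [ES, Finset.mem_filter]
  exact ⟨h9, F, h3, h10, hlt⟩

end Pool.Agent.H4.MO
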